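import Pool.Agent.SelPole.Half

/-!
MP_995735_nt, Q1, partial answer: members of the Selberg class whose pole at `s = 1` is as large
as the size of their coefficients allows.
-/

namespace Pool.Agent.Variants.MP_995735_nt.DominatedByZeta

open Complex Pool.Agent.SelPole
open scoped ArithmeticFunction.vonMangoldt

/-- Let `F` be in the Selberg class with a pole of order exactly `r` at `s = 1`, and let `L` be
entire with real coefficients `c(n)` of `log L` (for instance `L = 1`, `c = 0`). Suppose that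
`|b(n)| log n ≤ r Λ(n) + c(n) log n` outside a set `E` of integers that is thin of exponent less
than `1/2`. Then `F = ζ^r L`, or there is a real point `β` in `[1/2, 1)` at which `F` vanishes to
a higher order than `L`, and then `F / (ζ^r L)` is holomorphic and zero-free for
`Re s > (1 + β) / 2`. -/
theorem result {F : ℂ → ℂ} {a b : ℕ → ℂ} (hF : IsSelberg F a b) {r : ℕ}
    (hpole : meromorphicOrderAt F 1 = ((-(r : ℤ) : ℤ) : WithTop ℤ))
    {L : ℂ → ℂ} {c : ℕ → ℝ} (hL : IsEulerProduct L (fun n => (c n : ℂ)))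
    (hLent : Differentiable ℂ L) {E : Set ℕ} {σ₀ : ℝ} (hσ₀ : σ₀ < 1 / 2)
    (hE : Summable (E.indicator fun n : ℕ =>
      ((‖b n‖ + |c n|) * Real.log n + Λ n) * (n : ℝ) ^ (-σ₀)))
    (hdom : ∀ n : ℕ, n ∉ E → ‖b n‖ * Real.log n ≤ r * Λ n + c n * Real.log n) :
    (∀ s : ℂ, s ≠ 1 → F s = riemannZeta s ^ r * L s) ∨
      ∃ β : ℝ, 1 / 2 ≤ β ∧ β < 1 ∧ meromorphicOrderAt L β < meromorphicOrderAt F β ∧
        ∃ V : ℂ → ℂ, DifferentiableOn ℂ V {s | (1 + β) / 2 < s.re} ∧
          (∀ s : ℂ, (1 + β) / 2 < s.re → V s ≠ 0) ∧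
          ∀ s : ℂ, (1 + β) / 2 < s.re → s ≠ 1 → F s = riemannZeta s ^ r * L s * V s :=
  dominated_dichotomy hF.isEulerProduct hpole hL hLent hσ₀ hE hdom

end Pool.Agent.Variants.MP_995735_nt.DominatedByZeta
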