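import Pool.Agent.SelPole.Half

/-!
MP_995735_nt, Q1, partial answer: one-sided bounds for the coefficients at primes give the
statement of Q1 in a half-plane.
-/

namespace Pool.Agent.Variants.MP_995735_nt.HalfPlane

open Complex Pool.Agent.SelPole
open scoped ArithmeticFunction.vonMangoldt

/-- Let `F` be in the Selberg class with a pole of order exactly `r` at `s = 1`, let `0 ≤ β < 1`,
and let `L` be entire with real coefficients `c(n)` of `log L` (for instance `L = 1`, `c = 0`).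
Suppose that outside a set `E` of integers that is thin of exponent `β` one of the one-sided
bounds `Re b(n) log n ≤ r Λ(n) + c(n) log n` (all `n`) or
`r Λ(n) + c(n) log n ≤ Re b(n) log n` (all `n`) holds; in the first case suppose that at real
points of `(β, 1)` the order of `F` is at most that of `L`, in the second case the reverse and
`L(1) ≠ 0`. Then `F(s) conj(F(conj s)) = (ζ(s)^r L(s))^2 V(s)` with `V` holomorphic and zero-free
for `Re s > β`; if `F` has real coefficients then also `F = ζ^r L V` with such a `V`. -/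
theorem result {F : ℂ → ℂ} {a b : ℕ → ℂ} (hF : IsSelberg F a b) {r : ℕ}
    (hpole : meromorphicOrderAt F 1 = ((-(r : ℤ) : ℤ) : WithTop ℤ))
    {L : ℂ → ℂ} {c : ℕ → ℝ} (hL : IsEulerProduct L (fun n => (c n : ℂ)))
    (hLent : Differentiable ℂ L) {E : Set ℕ} {β : ℝ} (hβ0 : 0 ≤ β) (hβ1 : β < 1)
    (hE : ∀ σ : ℝ, β < σ → Summable (E.indicator fun n : ℕ =>
      ((‖b n‖ + |c n|) * Real.log n + Λ n) * (n : ℝ) ^ (-σ)))
    (h : ((∀ n : ℕ, n ∉ E → (b n).re * Real.log n ≤ r * Λ n + c n * Real.log n) ∧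
          ∀ x : ℝ, β < x → x < 1 → meromorphicOrderAt F x ≤ meromorphicOrderAt L x) ∨
        ((∀ n : ℕ, n ∉ E → r * Λ n + c n * Real.log n ≤ (b n).re * Real.log n) ∧ L 1 ≠ 0 ∧
          ∀ x : ℝ, β < x → x < 1 → meromorphicOrderAt L x ≤ meromorphicOrderAt F x)) :
    (∃ V : ℂ → ℂ, DifferentiableOn ℂ V {s | β < s.re} ∧ (∀ s : ℂ, β < s.re → V s ≠ 0) ∧
      ∀ s : ℂ, β < s.re → s ≠ 1 →
        F s * (starRingEnd ℂ) (F ((starRingEnd ℂ) s)) = (riemannZeta s ^ r * L s) ^ 2 * V s) ∧
    ((∀ n, (b n).im = 0) →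
      ∃ V : ℂ → ℂ, DifferentiableOn ℂ V {s | β < s.re} ∧ (∀ s : ℂ, β < s.re → V s ≠ 0) ∧
        ∀ s : ℂ, β < s.re → s ≠ 1 → F s = riemannZeta s ^ r * L s * V s) :=
  half_plane hF.isEulerProduct hpole hL hLent hβ0 hβ1 hE h

end Pool.Agent.Variants.MP_995735_nt.HalfPlane
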